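import Pool.Agent.Work.MP_bde882_al.Main

/-!
Finite `p`-groups whose nontrivial Hughes subgroup has index `p ^ k`: depth of `p`-th powers in
the lower central series and the resulting lower bound for the nilpotency class.
-/

set_option autoImplicit false

namespace Pool.Agent.Results.MP_bde882_al.ClassBound

open Pool.Agent.Work.MP_bde882_al

/-- Let `G` be a finite `p`-group whose Hughes subgroup `H` is nontrivial and of index `p ^ k`.
Write `W = lcWeight p (G ⧸ H)`. In Mathlib's numbering the `n`-th term of the lower central series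
is `γ_{n+1}(G)`. -/
theorem result (p : ℕ) (hp : p.Prime) (G : Type*) [Group G] [Finite G] (hG : IsPGroup p G)
    (hne : hughes p G ≠ ⊥) (k : ℕ) (hk : (hughes p G).index = p ^ k) :
    -- `p`-th powers of elements of `H` lie deep in the lower central series
    (∀ (n : ℕ), ∀ h ∈ hughes p G, h ∈ (⊤ : Subgroup G).lowerCentralSeries n →
      h ^ p ∈ (⊤ : Subgroup G).lowerCentralSeries
        (n + (p - 1) * lcWeight p (G ⧸ hughes p G))) ∧
    (p - 1) * lcWeight p (G ⧸ hughes p G) + 1 ≤ Group.nilpotencyClass G ∧
    -- in particular the class is at least `k (p - 1) + 1`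
    (p - 1) * k + 1 ≤ Group.nilpotencyClass G ∧
    -- and at least `(k + 1) (p - 1) + 1` if `G ⧸ H` is not abelian
    ((∃ x y : G, x * y * x⁻¹ * y⁻¹ ∉ hughes p G) →
      (p - 1) * (k + 1) + 1 ≤ Group.nilpotencyClass G) := by
  have := Fact.mk hp
  have hcard : Nat.card (G ⧸ hughes p G) = p ^ k := by rw [← hk]; rfl
  have hmain := lt_nilpotencyClass hp hG hne hk
  refine ⟨?_, hmain, ?_, ?_⟩
  · intro n h hh hn
    exact pow_mem_lcs (hughes p G) hp hk (fun g hg => pow_eq_one_of_not_mem_hughes hg) hh hn
  · have h1 := le_lcWeight hp k hcard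
    have h2 := Nat.mul_le_mul_left (p - 1) h1
    omega
  · rintro ⟨x, y, hxy⟩
    have hna : commutator (G ⧸ hughes p G) ≠ ⊥ := by
      intro hbot
      apply hxy
      rw [← QuotientGroup.eq_one_iff]
      have h1 : (x : G ⧸ hughes p G) * y * (x : G ⧸ hughes p G)⁻¹ * (y : G ⧸ hughes p G)⁻¹ ∈
          commutator (G ⧸ hughes p G) :=
        Subgroup.commutator_mem_commutator (Subgroup.mem_top _) (Subgroup.mem_top _)
      rw [hbot, Subgroup.mem_bot] at h1
      exact h1
    have h1 := succ_le_lcWeight hp k hcard hna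
    have h2 := Nat.mul_le_mul_left (p - 1) h1
    omega

end Pool.Agent.Results.MP_bde882_al.ClassBound
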