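import Pool.Agent.Work.MP_bde882_al_idx.Chain

/-!
A finite `7`-group whose Hughes subgroup is non-trivial and has index `7 ^ 3`.
-/

set_option autoImplicit false

namespace Pool.Agent.Results.MP_bde882_al.IndexSevenCubed

open Pool.Agent.Work.MP_bde882_al

/-- There is a finite `7`-group `G` such that the subgroup generated by the elements whose order is
not `7` is non-trivial and has index exactly `7 ^ 3` in `G`. -/
theorem result :
    ∃ (G : Type) (_ : Group G) (_ : Finite G), IsPGroup 7 G ∧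
      Subgroup.closure {x : G | orderOf x ≠ 7} ≠ ⊥ ∧
      (Subgroup.closure {x : G | orderOf x ≠ 7}).index = 7 ^ 3 := by
  obtain ⟨G, h1, h2, -, h3, h4, h5⟩ := Fin8.gp_of_HM _ Fin8.HH_d0_pos Fin8.HH_d2
    Fin8.gramSymm_HH Fin8.derZero_HH (Fin8.bigCheck_of_content _ J62.bigCheckC_HH)
    TC.long_HH.1 TC.long_HH.2.1 TC.long_HH.2.2
  exact ⟨G, h1, h2, h3, h4, h5⟩

end Pool.Agent.Results.MP_bde882_al.IndexSevenCubed
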